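import Mathlib
import Pool.Agent.N788.Even.Iso
import Pool.Agent.N788.Even.Three
import Pool.Agent.N788.Even.Tw

/-!
# Products of an even number of Möbius values along almost all dilates, at every scale

From the team: the isotypic structure theorem for correlations along almost all dilates
(`Pool.Agent.N781.S`, project S of helper781), the theorem on additive twists (`Pool.Agent.N279.M`,
project M of helper675), two forms with one arbitrary function (`Pool.Agent.N26.M`, `Pool.Agent.N650.M`).
From the starting files: the bound for short exponential sums with the Möbius function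
(`Pool.Agent.TH823.MRS`, the theorem of Matomäki, Radziwiłł and Tao). From Mathlib:
`ArithmeticFunction.moebius`, the Möbius function; `m.natAbs`: the absolute value of the integer `m`;
`Finset.Icc 1 x`: the integers between `1` and `x`; `round y`: the nearest integer to `y`.
-/

set_option autoImplicit false

namespace Pool.Agent.Results.MP_c59857_nt.EvenOrdersAlmostAllDilates

open Finset

/-- The value of the Möbius function at the absolute value of `m`, and `0` for `m = 0`. -/
noncomputable def mu (m : ℤ) : ℂ := ((ArithmeticFunction.moebius m.natAbs : ℤ) : ℂ)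

/-- The sum over `1 ≤ n ≤ x` of `∏ i, mu(a i n + b i d)^(e i)`. -/
noncomputable def corr {k : ℕ} (a b : Fin k → ℤ) (e : Fin k → ℕ) (x : ℕ) (d : ℤ) : ℂ :=
  ∑ n ∈ Icc (1 : ℤ) x, ∏ i, mu (a i * n + b i * d) ^ (e i)

/-- The sum over `1 ≤ n ≤ x` of `exp (2 π i γ n) ∏ i, mu(a i n + b i d)^(e i)`. -/
noncomputable def twisted {k : ℕ} (a b : Fin k → ℤ) (e : Fin k → ℕ) (γ : ℝ) (x : ℕ) (d : ℤ) : ℂ :=
  ∑ n ∈ Icc (1 : ℤ) x, Complex.exp (Complex.I * ((2 * Real.pi * (γ * n) : ℝ) : ℂ)) *
    ∏ i, mu (a i * n + b i * d) ^ (e i)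

/-- The number of the `1 ≤ n ≤ x` for which the Möbius function takes the value `s i` at
`|a i n + b i d|` for all `i`. -/
noncomputable def count {k : ℕ} (a b : Fin k → ℤ) (s : Fin k → ℤ) (x : ℕ) (d : ℤ) : ℕ :=
  ((Icc (1 : ℤ) x).filter
    (fun n => ∀ i, ArithmeticFunction.moebius (a i * n + b i * d).natAbs = s i)).card

/-- The number of the `1 ≤ n ≤ x` for which the square of the Möbius function takes the value
`s i ^ 2` at `|a i n + b i d|` for all `i`: only the condition that certain of these numbers are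
squarefree and the others are not. -/
noncomputable def countSq {k : ℕ} (a b : Fin k → ℤ) (s : Fin k → ℤ) (x : ℕ) (d : ℤ) : ℕ :=
  ((Icc (1 : ℤ) x).filter
    (fun n => ∀ i, ArithmeticFunction.moebius (a i * n + b i * d).natAbs ^ 2 = s i ^ 2)).card

/-- Let `a i ≠ 0` and `b i` be integers, `i < k`, `k ≥ 1`, let `R` be a natural number and `ε > 0`.
All exponents are `1` or `2`, except where stated all assertions hold for all `D ≥ K` and all
`x ≥ D / R`.
(1) Even number of exponents `1`: the correlation sums are, up to `ε x` in the mean over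
`1 ≤ d ≤ D`, functions of the greatest common divisor of `d` and a fixed `Q` and of the number of the
interval of length `D / Q` that contains `d`.
(2) Even number of exponents `1`: if for every `q ≥ 1` the signed means of the correlation sums over
the multiples `d ≤ D` of `q` tend to zero (relative to `x`), then the means of their absolute values
over all `d ≤ D` tend to zero.
(3) Exactly two exponents `1`, at two non-proportional forms: the means of the absolute values
tend to zero.
(4) At most three forms, no two proportional: for almost all `d` every pattern `s` of values in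
`{-1, 0, 1}` has its expected number of occurrences, `2 ^ (-m)` times the number of the occurrences of
the pattern of squares, `m` being the number of nonzero entries of `s`.
(5) All exponents, with an additive twist `γ` outside the major arcs: the means of the absolute values
of the twisted sums are at most `ε x`. -/
theorem result (k : ℕ) (hk : 0 < k) (a b : Fin k → ℤ) (ha : ∀ i, a i ≠ 0) (R : ℕ) (ε : ℝ)
    (hε : 0 < ε) :
    (∀ e : Fin k → ℕ, (∀ i, e i = 1 ∨ e i = 2) → Even (univ.filter (fun i => e i = 1)).card →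
      ∃ Q K : ℕ, 0 < Q ∧ ∀ D x : ℕ, K ≤ D → D ≤ R * x → ∃ s : ℤ → ℕ → ℂ,
        ∑ d ∈ Icc (1 : ℤ) D, ‖corr a b e x d - x * s ((d - 1) * Q / D) (Int.gcd d Q)‖ ≤
          ε * (D * x)) ∧
    (∀ e : Fin k → ℕ, (∀ i, e i = 1 ∨ e i = 2) → Even (univ.filter (fun i => e i = 1)).card →
      (∀ q : ℕ, 0 < q → ∀ δ : ℝ, 0 < δ → ∃ K : ℕ, ∀ D x : ℕ, K ≤ D → D ≤ R * x →
        ‖∑ d ∈ (Icc (1 : ℤ) D).filter (fun d => (q : ℤ) ∣ d), corr a b e x d‖ ≤ δ * (D * x)) →
      ∃ K : ℕ, ∀ D x : ℕ, K ≤ D → D ≤ R * x →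
        ∑ d ∈ Icc (1 : ℤ) D, ‖corr a b e x d‖ ≤ ε * (D * x)) ∧
    (∀ (e : Fin k → ℕ) (i₀ i₁ : Fin k), i₀ ≠ i₁ → e i₀ = 1 → e i₁ = 1 →
      (∀ i, i ≠ i₀ → i ≠ i₁ → e i = 2) → a i₀ * b i₁ ≠ a i₁ * b i₀ →
      ∃ K : ℕ, ∀ D x : ℕ, K ≤ D → D ≤ R * x →
        ∑ d ∈ Icc (1 : ℤ) D, ‖corr a b e x d‖ ≤ ε * (D * x)) ∧
    (k ≤ 3 → (∀ i j, i ≠ j → a i * b j ≠ a j * b i) →
      ∃ K : ℕ, ∀ D x : ℕ, K ≤ D → D ≤ R * x →
        ∀ s : Fin k → ℤ, (∀ i, s i = 0 ∨ s i = 1 ∨ s i = -1) →
          ∑ d ∈ Icc (1 : ℤ) D, |(2 : ℝ) ^ (univ.filter (fun i => s i ≠ 0)).card * count a b s x d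
            - countSq a b s x d| ≤ ε * (D * x)) ∧
    (∀ e : Fin k → ℕ, (∀ i, e i = 1 ∨ e i = 2) →
      ∃ Q K : ℕ, ∀ D x : ℕ, K ≤ D → D ≤ R * x → ∀ γ : ℝ,
        (∀ q : ℕ, 1 ≤ q → q ≤ Q → (Q : ℝ) / x < |(q : ℝ) * γ - round ((q : ℝ) * γ)|) →
        ∑ d ∈ Icc (1 : ℤ) D, ‖twisted a b e γ x d‖ ≤ ε * (D * x)) := by
  have hpar : ∀ e : Fin k → ℕ, (∀ i, e i = 1 ∨ e i = 2) →
      Even (univ.filter (fun i => e i = 1)).card → Even (∑ i, e i) := by
    intro e he hev
    have h1 : ∑ i, e i = (univ.filter (fun i => e i = 1)).card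
        + 2 * (univ.filter (fun i => e i = 2)).card := by
      rw [Finset.card_filter, Finset.card_filter, Finset.mul_sum, ← Finset.sum_add_distrib]
      apply Finset.sum_congr rfl
      intro i _
      rcases he i with h | h <;> rw [h] <;> simp
    rw [h1]
    exact hev.add (even_two_mul _)
  have hne0 : ∀ e : Fin k → ℕ, (∀ i, e i = 1 ∨ e i = 2) → ∀ i, e i ≠ 0 := fun e he i => by
    rcases he i with h | h <;> omega
  refine ⟨fun e he hev => ?_, fun e he hev H => ?_, fun e i₀ i₁ hi h0 h1 he hne => ?_,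
    fun hk3 hne => ?_, fun e he => ?_⟩
  · exact Pool.Agent.N788.Even.struct R k hk a b e ha (hne0 e he) (hpar e he hev) ε hε
  · exact Pool.Agent.N788.Even.signed R k hk a b e ha (hne0 e he) (hpar e he hev) H ε hε
  · exact Pool.Agent.N788.Even.two_ones R a b e ha i₀ i₁ hi h0 h1
      (fun i h2 h3 => Or.inr (he i h2 h3)) hne ε hε
  · exact Pool.Agent.N788.Even.patterns3 R hk3 a b ha hne ε hε
  · exact Pool.Agent.N788.Even.minor R a b e ha (hne0 e he) ε hε

end Pool.Agent.Results.MP_c59857_nt.EvenOrdersAlmostAllDilates
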