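import Mathlib
import Pool.Agent.N675.M.All
import Pool.Agent.N675.M.KatC

/-!
A criterion of Daboussi - Katai type for correlations of any order, even or odd, with a weight, along
almost all dilates, at every scale.
-/

namespace Pool.Agent.Results.MP_c59857_nt.KataiWeightsAllOrders

open Pool.Agent.N675 Pool.Agent.N675.M Pool.Agent.N781.A Pool.Agent.N781.FV

lemma multAt_of {k : ℕ} (F : Fin k → ℕ → ℂ) (h1 : ∀ i n, ‖F i n‖ ≤ 1)
    (h2 : ∀ i m n, Nat.Coprime m n → F i (m * n) = F i m * F i n) (P0 T : ℕ) :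
    MultAt (fun i (m : ℤ) => F i m.natAbs) (fun i p => F i p) P0 T := by
  refine ⟨fun i m => h1 i _, fun i p _ _ _ => h1 i p, fun i p hp _ _ m hm => ?_⟩
  simp only [Int.natAbs_mul, Int.natAbs_natCast]
  refine h2 i _ _ ((Nat.Prime.coprime_iff_not_dvd hp).mpr fun h => hm ?_)
  exact Int.natCast_dvd.mpr h

lemma uniform {r k : ℕ} (a : Fin k → ℤ) (L : Fin k → Fin r → ℤ) (ha : ∀ i, a i ≠ 0)
    (R P₀ : ℕ) (ε : ℝ) (hε : 0 < ε) :
    ∃ (P K : ℕ) (δ : ℝ), 0 < δ ∧ ∀ (D : Fin r → ℕ) (x : ℕ), (∀ j, K ≤ D j) → K ≤ x →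
      (∀ j, D j ≤ R * x) → ∀ F : Fin k → ℕ → ℂ, (∀ i n, ‖F i n‖ ≤ 1) →
      (∀ i m n, Nat.Coprime m n → F i (m * n) = F i m * F i n) →
      ∀ f : ℕ → ℂ, (∀ n, ‖f n‖ ≤ 1) →
      (∀ p q X : ℕ, p.Prime → q.Prime → P₀ ≤ p → p < q → q ≤ P → X ≤ x → x ≤ P * X →
        ‖∑ m ∈ Finset.Icc 1 X, f (p * m) * (starRingEnd ℂ) (f (q * m))‖ ≤ δ * X) →
      ∑ d ∈ Fintype.piFinset (fun j => Finset.Icc (1 : ℤ) (D j)),
        ‖∑ n ∈ Finset.Icc 1 x, f n * ∏ i, F i (a i * n + ∑ j, L i j * d j).natAbs‖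
          ≤ ε * (x * ∏ j, (D j : ℝ)) := by
  obtain ⟨P₁, K, δ, hδ, h⟩ := kat_all (Fin r) (Fin k) a L ha P₀ R (ε ^ 2) (by positivity)
  refine ⟨P₁ + 1, max (K + 1) (P₁ + 1), δ / 2, by positivity,
    fun D x hD hx hDx F hF1 hF2 f hf hort => ?_⟩
  have hx0 : (0 : ℝ) < x := by
    have : 0 < x := by omega
    exact_mod_cast this
  have hD0 : (0 : ℝ) < ∏ j, (D j : ℝ) :=
    Finset.prod_pos fun j _ => by
      have := hD j
      exact_mod_cast (by omega : 0 < D j)
  have key : ER D (fun y => ‖ccf a L (fun i (m : ℤ) => F i m.natAbs) (fun n => f n.natAbs) x y‖ ^ 2)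
      < ε ^ 2 := by
    by_contra hcon
    push Not at hcon
    obtain ⟨p, q, X, hp, hq, hPp, hpq, hqP, hxX, hXx, hcor⟩ := h D x
      (fun j => by have := hD j; omega) (by omega) hDx _ _ (multAt_of F hF1 hF2 P₀ P₁)
      (fun n => f n.natAbs) (fun n => hf _) hcon
    have hX0 : 0 < X := by
      rcases Nat.eq_zero_or_pos X with h0 | h0
      · subst h0; omega
      · exact h0
    have h1 := hort p q X hp hq hPp hpq (by omega) hXx
      (hxX.trans (Nat.mul_le_mul_right _ (by omega)))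
    have h2 : (av X fun m => f (((p : ℤ) * m).natAbs) * (starRingEnd ℂ) (f (((q : ℤ) * m).natAbs)))
        = (∑ m ∈ Finset.Icc 1 X, f (p * m) * (starRingEnd ℂ) (f (q * m))) / X := by
      unfold av
      congr 1
      refine Finset.sum_bij' (fun n _ => n.natAbs) (fun n _ => (n : ℤ)) ?_ ?_ ?_ ?_ ?_
      · intro n hn
        simp only [Finset.mem_Icc] at hn ⊢
        omega
      · intro n hn
        simp only [Finset.mem_Icc] at hn ⊢
        omega
      · intro n hn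
        simp only [Finset.mem_Icc] at hn
        exact Int.natAbs_of_nonneg (by omega)
      · intro n hn
        simp
      · intro n hn
        simp [Int.natAbs_mul]
    rw [h2, norm_div, Complex.norm_natCast, le_div_iff₀ (by exact_mod_cast hX0)] at hcor
    have hX0' : (0 : ℝ) < X := by exact_mod_cast hX0
    nlinarith
  have key2 := ER_first D (fun y => ccf a L (fun i (m : ℤ) => F i m.natAbs)
    (fun n => f n.natAbs) x y) hε.le key.le
  unfold ER at key2
  rw [div_le_iff₀ hD0] at key2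
  have h1 : ∀ d : Fin r → ℤ,
      ‖∑ n ∈ Finset.Icc 1 x, f n * ∏ i, F i (a i * n + ∑ j, L i j * d j).natAbs‖
      = x * ‖ccf a L (fun i (m : ℤ) => F i m.natAbs) (fun n => f n.natAbs) x d‖ := by
    intro d
    unfold ccf av
    rw [norm_div, Complex.norm_natCast, mul_div_cancel₀ _ hx0.ne']
    congr 1
    refine Finset.sum_bij' (fun n _ => (n : ℤ)) (fun n _ => n.natAbs) ?_ ?_ ?_ ?_ ?_
    · intro n hn
      simp only [Finset.mem_Icc] at hn ⊢
      omega
    · intro n hn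
      simp only [Finset.mem_Icc] at hn ⊢
      omega
    · intro n hn
      simp
    · intro n hn
      simp only [Finset.mem_Icc] at hn
      exact Int.natAbs_of_nonneg (by omega)
    · intro n hn
      simp [LL]
  calc _ = ∑ d ∈ Box D, x * ‖ccf a L (fun i (m : ℤ) => F i m.natAbs)
            (fun n => f n.natAbs) x d‖ := Finset.sum_congr rfl fun d _ => h1 d
    _ = x * ∑ d ∈ Box D, ‖ccf a L (fun i (m : ℤ) => F i m.natAbs)
            (fun n => f n.natAbs) x d‖ := by rw [Finset.mul_sum]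
    _ ≤ x * (ε * ∏ j, (D j : ℝ)) := mul_le_mul_of_nonneg_left key2 hx0.le
    _ = _ := by ring

/-- (1) Let `a i n + L i (d)`, `i < k`, be integer linear forms in `n` and `r` parameters `d`, with
`a i ≠ 0` (any `k`, even or odd). For all `R`, `P₀` and `ε > 0` there are `P`, `K` and `δ > 0` such
that for all `x ≥ K`, all `D j` with `K ≤ D j ≤ R x`, ALL multiplicative functions `F i` bounded by
`1` and all functions `f` bounded by `1` which satisfy `|∑_{m ≤ X} f(p m) conj(f(q m))| ≤ δ X` for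
all primes `P₀ ≤ p < q ≤ P` and all `x / P ≤ X ≤ x`, the sum over the box `1 ≤ d j ≤ D j` of the
absolute values of the sums over `n ≤ x` of `f(n) ∏ i, F i (|a i n + L i (d)|)` is at most `ε` times
`x ∏ j, D j`.
(2) If `f` is bounded by `1` and the means over `m ≤ X` of `f(p m) conj(f(q m))` tend to `0` for all
primes `P₀ ≤ p < q`, the same holds with `F i = μ ^ (e i)` for all `x ≥ K`, `K ≤ D j ≤ R x`. -/
theorem result :
    (∀ (r k : ℕ) (a : Fin k → ℤ) (L : Fin k → Fin r → ℤ), (∀ i, a i ≠ 0) →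
      ∀ (R P₀ : ℕ) (ε : ℝ), 0 < ε →
      ∃ (P K : ℕ) (δ : ℝ), 0 < δ ∧ ∀ (D : Fin r → ℕ) (x : ℕ), (∀ j, K ≤ D j) → K ≤ x →
        (∀ j, D j ≤ R * x) → ∀ F : Fin k → ℕ → ℂ, (∀ i n, ‖F i n‖ ≤ 1) →
        (∀ i m n, Nat.Coprime m n → F i (m * n) = F i m * F i n) →
        ∀ f : ℕ → ℂ, (∀ n, ‖f n‖ ≤ 1) →
        (∀ p q X : ℕ, p.Prime → q.Prime → P₀ ≤ p → p < q → q ≤ P → X ≤ x → x ≤ P * X →
          ‖∑ m ∈ Finset.Icc 1 X, f (p * m) * (starRingEnd ℂ) (f (q * m))‖ ≤ δ * X) →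
        ∑ d ∈ Fintype.piFinset (fun j => Finset.Icc (1 : ℤ) (D j)),
          ‖∑ n ∈ Finset.Icc 1 x, f n * ∏ i, F i (a i * n + ∑ j, L i j * d j).natAbs‖
            ≤ ε * (x * ∏ j, (D j : ℝ))) ∧
    (∀ (r k : ℕ) (a : Fin k → ℤ) (L : Fin k → Fin r → ℤ) (e : Fin k → ℕ), (∀ i, a i ≠ 0) →
      ∀ f : ℕ → ℂ, (∀ n, ‖f n‖ ≤ 1) → ∀ P₀ : ℕ,
      (∀ p q : ℕ, p.Prime → q.Prime → P₀ ≤ p → p < q →
        Filter.Tendsto (fun X : ℕ => (∑ m ∈ Finset.Icc 1 X,
          f (p * m) * (starRingEnd ℂ) (f (q * m))) / X) Filter.atTop (nhds 0)) →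
      ∀ (R : ℕ) (ε : ℝ), 0 < ε →
      ∃ K : ℕ, ∀ (D : Fin r → ℕ) (x : ℕ), (∀ j, K ≤ D j) → K ≤ x → (∀ j, D j ≤ R * x) →
        ∑ d ∈ Fintype.piFinset (fun j => Finset.Icc (1 : ℤ) (D j)),
          ‖∑ n ∈ Finset.Icc 1 x, f n *
            ∏ i, (ArithmeticFunction.moebius (a i * n + ∑ j, L i j * d j).natAbs : ℂ) ^ e i‖
            ≤ ε * (x * ∏ j, (D j : ℝ))) := by
  refine ⟨fun r k a L ha R P₀ ε hε => uniform a L ha R P₀ ε hε,
    fun r k a L e ha f hf P₀ hlim R ε hε => ?_⟩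
  classical
  obtain ⟨P, K, δ, hδ, h⟩ := uniform a L ha R P₀ ε hε
  have hN : ∀ p q : ℕ, ∃ N : ℕ, p.Prime → q.Prime → P₀ ≤ p → p < q → ∀ X : ℕ, N ≤ X →
      ‖∑ m ∈ Finset.Icc 1 X, f (p * m) * (starRingEnd ℂ) (f (q * m))‖ ≤ δ * X := by
    intro p q
    by_cases hpq : p.Prime ∧ q.Prime ∧ P₀ ≤ p ∧ p < q
    · obtain ⟨h1, h2, h3, h4⟩ := hpq
      obtain ⟨N, hN⟩ := (Metric.tendsto_atTop.mp (hlim p q h1 h2 h3 h4)) δ hδ
      refine ⟨N + 1, fun _ _ _ _ X hX => ?_⟩
      have h5 := hN X (by omega)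
      rw [dist_zero_right, norm_div, Complex.norm_natCast, div_lt_iff₀
        (by exact_mod_cast (by omega : 0 < X))] at h5
      exact h5.le
    · exact ⟨0, fun h1 h2 h3 h4 => absurd ⟨h1, h2, h3, h4⟩ hpq⟩
  choose N hN using hN
  set M : ℕ := ∑ p ∈ Finset.range (P + 1), ∑ q ∈ Finset.range (P + 1), N p q with hM
  refine ⟨max K (P * (M + 1) + 1), fun D x hD hx hDx => ?_⟩
  refine h D x (fun j => (le_max_left _ _).trans (hD j)) ((le_max_left _ _).trans hx) hDx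
    (fun i n => ((ArithmeticFunction.moebius n : ℤ) : ℂ) ^ e i) ?_ ?_ f hf ?_
  · intro i n
    rw [norm_pow]
    refine pow_le_one₀ (norm_nonneg _) ?_
    rw [Complex.norm_intCast]
    exact_mod_cast ArithmeticFunction.abs_moebius_le_one
  · intro i m n hmn
    rw [ArithmeticFunction.isMultiplicative_moebius.map_mul_of_coprime hmn]
    push_cast
    rw [mul_pow]
  · intro p q X hp hq hPp hpq hqP hXx hxX
    refine hN p q hp hq hPp hpq X ?_
    have h1 : N p q ≤ M := by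
      rw [hM]
      calc N p q ≤ ∑ q ∈ Finset.range (P + 1), N p q :=
            Finset.single_le_sum (f := fun q => N p q) (fun _ _ => Nat.zero_le _)
              (Finset.mem_range.mpr (by omega))
        _ ≤ _ := Finset.single_le_sum (f := fun p => ∑ q ∈ Finset.range (P + 1), N p q)
              (fun _ _ => Nat.zero_le _) (Finset.mem_range.mpr (by omega))
    have h2 : P * (M + 1) < P * X := by
      have := (le_max_right K (P * (M + 1) + 1)).trans hx
      omega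
    have h3 : M + 1 < X := lt_of_mul_lt_mul_left h2 (Nat.zero_le _)
    omega

end Pool.Agent.Results.MP_c59857_nt.KataiWeightsAllOrders
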