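import Mathlib
import Pool.Agent.N788.MuAllFinal

/-!
# Products of Möbius values at arbitrary integer linear forms, in all boxes, with all additive twists

The dilation principle for all systems of linear forms and the sign flip lemma are from
`Pool.Agent.N675` (helper675). From Mathlib: `ArithmeticFunction.moebius`, the Möbius function;
`m.natAbs`: the absolute value of the integer `m`; `Finset.Icc 1 b`: the integers between `1` and `b`;
`Fintype.piFinset S`: the vectors `y` with `y s ∈ S s` for all `s`.
-/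

set_option autoImplicit false

namespace Pool.Agent.Results.MP_c59857_nt.OddAllSystemsTwisted

open Finset

/-- The value of the Möbius function at the absolute value of `m`, and `0` for `m = 0`. -/
noncomputable def mu (m : ℤ) : ℂ := ((ArithmeticFunction.moebius m.natAbs : ℤ) : ℂ)

/-- The value of the linear form with the coefficients `a` at the vector `y`. -/
def form {n : ℕ} (a y : Fin n → ℤ) : ℤ := ∑ s, a s * y s

/-- The sum over the integer vectors `y` with `1 ≤ y s ≤ B s` for all `s` of
`exp(2πi θ·y) ∏ i, mu(ψ i (y))^(e i)`. -/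
noncomputable def twistedSum {n r : ℕ} (ψ : Fin r → Fin n → ℤ) (e : Fin r → ℕ) (B : Fin n → ℕ)
    (θ : Fin n → ℝ) : ℂ :=
  ∑ y ∈ Fintype.piFinset (fun s => Icc (1 : ℤ) (B s)),
    Complex.exp (2 * Real.pi * Complex.I * ((∑ s, θ s * y s : ℝ) : ℂ)) * ∏ i, mu (form (ψ i) y) ^ (e i)

/-- Let `ψ 0, …, ψ (r-1)` be integer linear forms in `n` variables, all exponents `e i` being `1` or `2`.
If the number of exponents `1` is odd, the twisted sums over all boxes with sides at least `K` are at most
`ε` times the volume, for all twists. Without this condition, a twisted sum that is larger than that has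
all its frequencies close to rationals with a bounded common denominator. -/
theorem result (n r : ℕ) (ψ : Fin r → Fin n → ℤ) (e : Fin r → ℕ) (he : ∀ i, e i = 1 ∨ e i = 2)
    (ε : ℝ) (hε : 0 < ε) :
    (Odd (univ.filter (fun i => e i = 1)).card →
      ∃ K : ℕ, ∀ B : Fin n → ℕ, (∀ s, K ≤ B s) → ∀ θ : Fin n → ℝ,
        ‖twistedSum ψ e B θ‖ ≤ ε * ∏ s, (B s : ℝ)) ∧
    ∃ Q K : ℕ, ∀ B : Fin n → ℕ, (∀ s, K ≤ B s) → ∀ θ : Fin n → ℝ,
      ε * ∏ s, (B s : ℝ) < ‖twistedSum ψ e B θ‖ →
        ∃ q : ℕ, 1 ≤ q ∧ q ≤ Q ∧ ∀ s, ∃ a : ℤ, |(q : ℝ) * θ s - a| ≤ Q / B s :=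
  Pool.Agent.N788.MuAllFinal.final ψ e he ε hε

end Pool.Agent.Results.MP_c59857_nt.OddAllSystemsTwisted
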