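import Mathlib
import Pool.Agent.N788.MuDil2

/-!
# Products of Möbius values along almost all dilates, at every scale

The passage from a large mean square over the dilates to a large Fourier coefficient in two variables
(`Pool.Agent.N781.A.four`) is from project A of helper781, with lemmas of helper344, 362, 478, 498,
565, 776, 803, 814, 821 and the dilation principle of helper675. From Mathlib:
`ArithmeticFunction.moebius`, the Möbius function; `m.natAbs`: the absolute value of the integer `m`;
`Finset.Icc 1 x`: the integers between `1` and `x`.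
-/

set_option autoImplicit false

namespace Pool.Agent.Results.MP_c59857_nt.OddOrdersAlmostAllDilates

open Finset

/-- The value of the Möbius function at the absolute value of `m`, and `0` for `m = 0`. -/
noncomputable def mu (m : ℤ) : ℂ := ((ArithmeticFunction.moebius m.natAbs : ℤ) : ℂ)

/-- The sum over `1 ≤ n ≤ x` of `∏ i, mu(a i n + b i d)^(e i)`. -/
noncomputable def corr {k : ℕ} (a b : Fin k → ℤ) (e : Fin k → ℕ) (x : ℕ) (d : ℤ) : ℂ :=
  ∑ n ∈ Icc (1 : ℤ) x, ∏ i, mu (a i * n + b i * d) ^ (e i)

/-- The number of the `1 ≤ n ≤ x` for which the Möbius function takes the value `s i` at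
`|a i n + b i d|` for all `i`. -/
noncomputable def count {k : ℕ} (a b : Fin k → ℤ) (s : Fin k → ℤ) (x : ℕ) (d : ℤ) : ℕ :=
  ((Icc (1 : ℤ) x).filter
    (fun n => ∀ i, ArithmeticFunction.moebius (a i * n + b i * d).natAbs = s i)).card

/-- Let `a i ≠ 0` and `b i` be integers, `i < k`, let `R` be a natural number and `ε > 0`.
(1) If the exponents `e i` are `1` or `2` and the number of the exponents `1` is odd, then for all
`D ≥ K` and all `x ≥ D / R` the mean over `1 ≤ d ≤ D` of the absolute values of the correlation sums is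
at most `ε x`.
(2) For all `D ≥ K` and all `x ≥ D / R` and every pattern `s` of values in `{-1, 0, 1}` the mean over
`1 ≤ d ≤ D` of the absolute value of the difference between the number of the occurrences of `s` and
that of `-s` is at most `ε x`. -/
theorem result (k : ℕ) (a b : Fin k → ℤ) (ha : ∀ i, a i ≠ 0) (R : ℕ) (ε : ℝ) (hε : 0 < ε) :
    (∀ e : Fin k → ℕ, (∀ i, e i = 1 ∨ e i = 2) → Odd (univ.filter (fun i => e i = 1)).card →
      ∃ K : ℕ, ∀ D x : ℕ, K ≤ D → D ≤ R * x →
        ∑ d ∈ Icc (1 : ℤ) D, ‖corr a b e x d‖ ≤ ε * (D * x)) ∧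
    ∃ K : ℕ, ∀ D x : ℕ, K ≤ D → D ≤ R * x →
      ∀ s : Fin k → ℤ, (∀ i, s i = 0 ∨ s i = 1 ∨ s i = -1) →
        ∑ d ∈ Icc (1 : ℤ) D, |(count a b s x d : ℝ) - count a b (fun i => - s i) x d| ≤
          ε * (D * x) :=
  ⟨fun e he hodd => Pool.Agent.N788.MuDil2.main R a b e ha he hodd ε hε,
    Pool.Agent.N788.MuDil2.patterns R a b ha ε hε⟩

end Pool.Agent.Results.MP_c59857_nt.OddOrdersAlmostAllDilates
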